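import Pool.Agent.SM2e.Cmp

set_option autoImplicit false

namespace Pool.Agent.Results.MP_2e40ce_al.BlockRigidity

/-- The generators of the group, acting on finite binary words (`true` is the digit 1).
`s = 0` is the generator a, `s = 1` is b, `s = 2` is c, `s = 3` is d. The letter with number `s`
(1, 2 or 3) acts trivially below the vertex `1^n 0` exactly when `ω n = 3 - s`. -/
def gen (ω : ℕ → Fin 3) (s : Fin 4) (v : List Bool) : List Bool :=
  if s = 0 then v.set 0 (!(v.getD 0 false))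
  else if (List.takeWhile id v).length + 1 < v.length ∧
      (ω (List.takeWhile id v).length).val ≠ 3 - s.val
    then v.set ((List.takeWhile id v).length + 1)
      (!(v.getD ((List.takeWhile id v).length + 1) false))
    else v

/-- The action of a word in the generators. -/
def act (ω : ℕ → Fin 3) (u : List (Fin 4)) : List Bool → List Bool :=
  (u.map (gen ω)).foldr (fun f g => f ∘ g) id

/-- The number of words of length `k` in the four generators that equal the identity; it is
`4 ^ k` times the `k`-th moment of the spectral measure. -/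
noncomputable def returns (ω : ℕ → Fin 3) (k : ℕ) : ℕ :=
  Nat.card {u : List (Fin 4) // u.length = k ∧ act ω u = id}

/-- `ω` is not eventually constant. -/
def NotEvConst (ω : ℕ → Fin 3) : Prop := ∀ n, ∃ i, n ≤ i ∧ ω i ≠ ω n

/-- The first `n` symbols `ω 0, …, ω (n-1)` form at most two blocks of equal symbols. -/
def TwoBlocks (ω : ℕ → Fin 3) (n : ℕ) : Prop :=
  ∃ r, (∀ i < n, i < r → ω i = ω 0) ∧ ∀ i < n, r ≤ i → ω i = ω r

/-- The second to fifth symbols agree, and the first symbol does not occur again among the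
first `n` symbols. -/
def NoReturn (ω : ℕ → Fin 3) (n : ℕ) : Prop :=
  ω 1 = ω 2 ∧ ω 2 = ω 3 ∧ ω 3 = ω 4 ∧ ∀ i, 1 ≤ i → i < n → ω i ≠ ω 0

open Pool.Agent.SM2e

lemma returns_eq' (ω : ℕ → Fin 3) (k : ℕ) : returns ω k = Pool.Agent.SM2e.returns ω k := rfl

lemma ret_perm (π : Equiv.Perm (Fin 3)) (ω : ℕ → Fin 3) (k : ℕ) :
    returns (fun n => π (ω n)) k = returns ω k := Pool.Agent.SM2e.returns_perm π ω k

lemma exists_o (k : Fin 3) : ∃ o : Option Bool, so o = k := by
  revert k; decide

lemma exists_b (k : Fin 3) (hk : k ≠ 0) : ∃ b : Bool, sy b = k := by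
  revert k; decide

lemma so_inj {o o' : Option Bool} (h : so o = so o') : o = o' := by
  revert o o'; decide

lemma sy_inj {b c : Bool} (h : sy b = sy c) : b = c := by
  revert b c; decide

lemma Pre_of : ∀ (η : List Bool) (k : Fin 3) (ω : ℕ → Fin 3),
    (∀ i (h : i < η.length), ω i = sy η[i]) → ω η.length = k → Pre η k ω
  | [], k, ω, _, h => h
  | s :: η, k, ω, h1, h2 =>
    ⟨h1 0 (by simp), Pre_of η k (sh ω) (fun i hi => h1 (i + 1) (by simpa using hi)) h2⟩

lemma exists_eta : ∀ (m : ℕ) (ω : ℕ → Fin 3), (∀ i < m, ω i ≠ 0) →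
    ∃ η : List Bool, η.length = m ∧ ∀ i (h : i < η.length), ω i = sy η[i]
  | 0, _, _ => ⟨[], rfl, fun i h => by simp at h⟩
  | m + 1, ω, h => by
    obtain ⟨b, hb⟩ := exists_b (ω 0) (h 0 (by omega))
    obtain ⟨η, h1, h2⟩ := exists_eta m (sh ω) (fun i hi => h (i + 1) (by omega))
    refine ⟨b :: η, by simp [h1], ?_⟩
    intro i hi
    cases i with
    | zero => exact hb.symm
    | succ i => exact h2 i (by simpa using hi)

/-- Comparison of two sequences with common prefix `0^(r+1) η`. -/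
lemma cmp_core (ω ω' : ℕ → Fin 3) (hω : ND ω) (hω' : ND ω') (r : ℕ) (η : List Bool)
    (hag : ∀ i < r + 1 + η.length, ω i = ω' i) (hne : ω (r + 1 + η.length) ≠ ω' (r + 1 + η.length))
    (h0 : ∀ i < r + 1, ω i = 0) (hη : ∀ i (h : i < η.length), ω (i + (r + 1)) = sy η[i])
    (heq : ∀ k, returns ω k = returns ω' k)
    (hcmp : ∀ o o' : Option Bool, o ≠ o' → so o = ω (r + 1 + η.length) →
      so o' = ω' (r + 1 + η.length) → ∀ ρ : ℕ → Fin 3, ND ρ → Pre η 0 ρ →
      ¬ (2 : ℤ) ^ (η.length + r + 4) ∣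
        (BB ρ (2 ^ (η.length + 2)) + kk η o) ^ (2 ^ (r + 1)) -
        (BB ρ (2 ^ (η.length + 2)) + kk η o') ^ (2 ^ (r + 1))) : False := by
  obtain ⟨o, ho⟩ := exists_o (ω (r + 1 + η.length))
  obtain ⟨o', ho'⟩ := exists_o (ω' (r + 1 + η.length))
  have hoo : o ≠ o' := by rintro rfl; exact hne (by rw [← ho, ← ho'])
  obtain ⟨ρ, hρ1, hρ2⟩ := exists_ref η
  have hP : ∀ n, PPn ω n = PPn ω' n := PPn_eq ω ω' heq
  have h1 : Pre η (so o) (shn (r + 1) ω) := by
    apply Pre_of
    · intro i hi; exact hη i hi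
    · rw [ho]; unfold shn; congr 1; ring
  have h1' : Pre η (so o') (shn (r + 1) ω') := by
    apply Pre_of
    · intro i hi
      have := hag (i + (r + 1)) (by omega)
      unfold shn
      rw [← this]; exact hη i hi
    · rw [ho']; unfold shn; congr 1; ring
  exact hcmp o o' hoo ho ho' ρ hρ2 hρ1 (main_cong r η o o' ω ω' ρ hω hω' hρ2 h0
    (fun i hi => by rw [← hag i (by omega)]; exact h0 i hi) h1 h1' hρ1 hP)

lemma cmp_two (ω ω' : ℕ → Fin 3) (hω : ND ω) (hω' : ND ω') (n : ℕ)
    (hag : ∀ i < n, ω i = ω' i) (hne : ω n ≠ ω' n) (hold : ∃ i < n, ω i = ω n ∨ ω i = ω' n)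
    (hg : TwoBlocks ω n) (heq : ∀ k, returns ω k = returns ω' k) (h00 : ω 0 = 0) : False := by
  obtain ⟨i0, hi0, hi0'⟩ := hold
  by_cases hall : ∀ i < n, ω i = 0
  · obtain ⟨r, rfl⟩ : ∃ r, n = r + 1 := ⟨n - 1, by omega⟩
    apply cmp_core ω ω' hω hω' r [] hag hne hall (fun i h => by simp at h) heq
    intro o o' hoo ho ho' ρ hρ hρ'
    apply cmp_nil r o o' hoo _ ρ hρ hρ'
    rw [hall i0 hi0] at hi0'
    rcases hi0' with h | h
    · left; apply so_inj; rw [ho]; exact h.symm
    · right; apply so_inj; rw [ho']; exact h.symm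
  · push Not at hall
    obtain ⟨i, hi, hi2⟩ := hall
    obtain ⟨r0, hr1, hr2⟩ := hg
    have hri : r0 ≤ i := by
      by_contra hlt
      exact hi2 (by rw [hr1 i hi (by omega), h00])
    have hne0 : ω r0 ≠ 0 := by rw [← hr2 i hi hri]; exact hi2
    have hr00 : r0 ≠ 0 := by rintro rfl; exact hne0 h00
    obtain ⟨r, rfl⟩ : ∃ r, r0 = r + 1 := ⟨r0 - 1, by omega⟩
    obtain ⟨m, rfl⟩ : ∃ m, n = r + 1 + (m + 1) := ⟨n - (r + 1) - 1, by omega⟩
    obtain ⟨y, hy⟩ := exists_b _ hne0
    have hlen : (List.replicate (m + 1) y).length = m + 1 := by simp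
    apply cmp_core ω ω' hω hω' r (List.replicate (m + 1) y) (by rw [hlen]; exact hag)
      (by rw [hlen]; exact hne) (fun i hi3 => by rw [hr1 i (by omega) hi3, h00]) _ heq
    · intro o o' hoo _ _ ρ hρ hρ'
      exact cmp_const y m r o o' hoo ρ hρ hρ'
    · intro j hj
      rw [hlen] at hj
      rw [hr2 (j + (r + 1)) (by omega) (by omega), ← hy]
      simp

lemma cmp_ret (ω ω' : ℕ → Fin 3) (hω : ND ω) (hω' : ND ω') (n : ℕ)
    (hag : ∀ i < n, ω i = ω' i) (hne : ω n ≠ ω' n) (hold : ∃ i < n, ω i = ω n ∨ ω i = ω' n)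
    (hg : NoReturn ω n) (heq : ∀ k, returns ω k = returns ω' k) (h00 : ω 0 = 0) : False := by
  by_cases hall : ∀ i, 1 ≤ i → i < n → ω i = ω 1
  · refine cmp_two ω ω' hω hω' n hag hne hold ⟨1, ?_, ?_⟩ heq h00
    · intro i _ hi; rw [show i = 0 by omega]
    · intro i hi hi2; exact hall i hi2 hi
  · push Not at hall
    obtain ⟨i, hi1, hi2, hi3⟩ := hall
    obtain ⟨e12, e23, e34, hno⟩ := hg
    have hi5 : 5 ≤ i := by
      by_contra hlt
      have : i = 1 ∨ i = 2 ∨ i = 3 ∨ i = 4 := by omega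
      rcases this with rfl | rfl | rfl | rfl
      · exact hi3 rfl
      · exact hi3 e12.symm
      · exact hi3 (by rw [← e23, ← e12])
      · exact hi3 (by rw [← e34, ← e23, ← e12])
    obtain ⟨η, hlen, hη⟩ := exists_eta (n - 1) (sh ω) (fun j hj => by
      have := hno (j + 1) (by omega) (by omega)
      rw [h00] at this
      exact this)
    obtain ⟨a, b, c, d, η', rfl⟩ : ∃ a b c d η', η = a :: b :: c :: d :: η' := by
      match η, hlen with
      | a :: b :: c :: d :: η', _ => exact ⟨a, b, c, d, η', rfl⟩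
      | [], h => simp at h; omega
      | [_], h => simp at h; omega
      | [_, _], h => simp at h; omega
      | [_, _, _], h => simp at h; omega
    have ha : ω 1 = sy a := hη 0 (by simp)
    have hb : ω 2 = sy b := hη 1 (by simp)
    have hc : ω 3 = sy c := hη 2 (by simp)
    have hd : ω 4 = sy d := hη 3 (by simp)
    have hab : a = b := sy_inj (by rw [← ha, ← hb, e12])
    have hbc : b = c := sy_inj (by rw [← hb, ← hc, e23])
    have hcd : c = d := sy_inj (by rw [← hc, ← hd, e34])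
    subst hab; subst hbc; subst hcd
    have hmem : (!a) ∈ η' := by
      have h1 := hη (i - 1) (by rw [hlen]; omega)
      have h2 : sh ω (i - 1) = ω i := by unfold sh; congr 1; omega
      rw [h2] at h1
      obtain ⟨j, rfl⟩ : ∃ j, i = j + 5 := ⟨i - 5, by omega⟩
      have hj : j < η'.length := by simp at hlen; omega
      have h3 : (a :: a :: a :: a :: η')[j + 5 - 1]'(by rw [hlen]; omega) = η'[j] := rfl
      rw [h3] at h1
      have h4 : η'[j] = !a := by
        have h5 : η'[j] ≠ a := by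
          intro h6
          apply hi3
          rw [h1, h6, ha]
        revert h5
        generalize η'[j] = e
        cases e <;> cases a <;> simp
      rw [← h4]
      exact List.getElem_mem hj
    have hn : 0 + 1 + (a :: a :: a :: a :: η').length = n := by rw [hlen]; omega
    apply cmp_core ω ω' hω hω' 0 (a :: a :: a :: a :: η') (by rw [hn]; exact hag)
      (by rw [hn]; exact hne) (fun j hj => by rw [show j = 0 by omega]; exact h00) hη heq
    intro o o' hoo _ _ ρ hρ hρ'
    exact cmp_mixed a η' hmem o o' hoo ρ hρ hρ'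

lemma cmp_all (ω ω' : ℕ → Fin 3) (hω : ND ω) (hω' : ND ω') (n : ℕ)
    (hag : ∀ i < n, ω i = ω' i) (hne : ω n ≠ ω' n) (hold : ∃ i < n, ω i = ω n ∨ ω i = ω' n)
    (hg : TwoBlocks ω n ∨ NoReturn ω n) (heq : ∀ k, returns ω k = returns ω' k) : False := by
  let π : Equiv.Perm (Fin 3) := Equiv.swap (ω 0) 0
  have hπ : π (ω 0) = 0 := Equiv.swap_apply_left _ _
  have hND : ∀ ω : ℕ → Fin 3, ND ω → ND (fun n => π (ω n)) := by
    intro ω h n
    obtain ⟨i, hi, h2⟩ := h n
    exact ⟨i, hi, fun h3 => h2 (π.injective h3)⟩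
  have heq' : ∀ k, returns (fun n => π (ω n)) k = returns (fun n => π (ω' n)) k := by
    intro k; rw [ret_perm, ret_perm]; exact heq k
  have hag' : ∀ i < n, π (ω i) = π (ω' i) := fun i hi => by rw [hag i hi]
  have hne' : π (ω n) ≠ π (ω' n) := fun h => hne (π.injective h)
  have hold' : ∃ i < n, π (ω i) = π (ω n) ∨ π (ω i) = π (ω' n) := by
    obtain ⟨i, hi, h | h⟩ := hold
    · exact ⟨i, hi, Or.inl (by rw [h])⟩
    · exact ⟨i, hi, Or.inr (by rw [h])⟩
  rcases hg with ⟨r, h1, h2⟩ | ⟨h1, h2, h3, h4⟩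
  · exact cmp_two _ _ (hND ω hω) (hND ω' hω') n hag' hne' hold'
      ⟨r, fun i hi hi2 => congrArg π (h1 i hi hi2), fun i hi hi2 => congrArg π (h2 i hi hi2)⟩
      heq' hπ
  · exact cmp_ret _ _ (hND ω hω) (hND ω' hω') n hag' hne' hold'
      ⟨congrArg π h1, congrArg π h2, congrArg π h3,
        fun i hi hi2 h => h4 i hi hi2 (π.injective h)⟩ heq' hπ

lemma good_le {ω : ℕ → Fin 3} {n i : ℕ} (hi : i ≤ n) (h : TwoBlocks ω n ∨ NoReturn ω n) :
    TwoBlocks ω i ∨ NoReturn ω i := by
  rcases h with ⟨r, h1, h2⟩ | ⟨h1, h2, h3, h4⟩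
  · exact Or.inl ⟨r, fun j hj => h1 j (by omega), fun j hj => h2 j (by omega)⟩
  · exact Or.inr ⟨h1, h2, h3, fun j hj hj2 => h4 j hj (by omega)⟩

lemma step_perm (ω ω' : ℕ → Fin 3) (hω : ND ω) (hω' : ND ω')
    (heq : ∀ k, returns ω k = returns ω' k) : ∀ n, (TwoBlocks ω n ∨ NoReturn ω n) →
    ∃ π : Equiv.Perm (Fin 3), ∀ i ≤ n, ω' i = π (ω i) := by
  intro n
  have key : ∀ n, (TwoBlocks ω n ∨ NoReturn ω n) →
      (∃ π : Equiv.Perm (Fin 3), ∀ i < n, ω' i = π (ω i)) →
      ∃ π : Equiv.Perm (Fin 3), ∀ i < n + 1, ω' i = π (ω i) := by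
    rintro n hg ⟨π, hπ⟩
    by_cases hn : ω' n = π (ω n)
    · refine ⟨π, fun i hi => ?_⟩
      rcases Nat.lt_or_ge i n with h | h
      · exact hπ i h
      · rw [show i = n by omega]; exact hn
    · -- the sequence π⁻¹ ∘ ω'
      have hag : ∀ i < n, ω i = π⁻¹ (ω' i) := by
        intro i hi; rw [hπ i hi]; simp
      have hne : ω n ≠ π⁻¹ (ω' n) := by
        intro h; apply hn; rw [h]; simp
      by_cases hold : ∃ i < n, ω i = ω n ∨ ω i = π⁻¹ (ω' n)
      · exfalso
        have hND : ND (fun n => π⁻¹ (ω' n)) := by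
          intro n
          obtain ⟨i, hi, h2⟩ := hω' n
          exact ⟨i, hi, fun h3 => h2 (π⁻¹.injective h3)⟩
        apply cmp_all ω (fun n => π⁻¹ (ω' n)) hω hND n hag hne hold hg
        intro k
        rw [ret_perm]; exact heq k
      · push Not at hold
        refine ⟨π * Equiv.swap (ω n) (π⁻¹ (ω' n)), fun i hi => ?_⟩
        rcases Nat.lt_or_ge i n with h | h
        · have h2 := hold i h
          rw [Equiv.Perm.mul_apply, Equiv.swap_apply_of_ne_of_ne h2.1 h2.2]
          exact hπ i h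
        · rw [show i = n by omega, Equiv.Perm.mul_apply, Equiv.swap_apply_left]; simp
  have all : ∀ n, (TwoBlocks ω n ∨ NoReturn ω n) →
      ∃ π : Equiv.Perm (Fin 3), ∀ i < n + 1, ω' i = π (ω i) := by
    intro n
    induction n with
    | zero =>
      intro hg
      exact key 0 hg ⟨1, fun i hi => by omega⟩
    | succ n ih =>
      intro hg
      exact key (n + 1) hg (ih (good_le (by omega) hg))
  intro hg
  obtain ⟨π, hπ⟩ := all n hg
  exact ⟨π, fun i hi => hπ i (by omega)⟩

lemma one_perm (ω ω' : ℕ → Fin 3) (hω : ND ω) (hω' : ND ω')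
    (heq : ∀ k, returns ω k = returns ω' k) :
    ∃ π : Equiv.Perm (Fin 3), ∀ n, (TwoBlocks ω n ∨ NoReturn ω n) → ω' n = π (ω n) := by
  by_contra hc
  push Not at hc
  choose f hf1 hf2 using hc
  let N := Finset.univ.sup f
  obtain ⟨π1, _, hπ1⟩ := Finset.exists_mem_eq_sup (Finset.univ : Finset (Equiv.Perm (Fin 3)))
    ⟨1, Finset.mem_univ _⟩ f
  obtain ⟨π, hπ⟩ := step_perm ω ω' hω hω' heq (f π1) (hf1 π1)
  apply hf2 π
  apply hπ
  rw [← hπ1]
  exact Finset.le_sup (Finset.mem_univ π)

/-- **Theorem.** (1) Let `ω, ω'` be not eventually constant and suppose that the spectral measures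
of the two groups agree. Then after a renaming `π` of the three symbols `ω'` agrees with `ω` up to and
including the first symbol of the third block of equal symbols of `ω`; and if the second to fifth symbols
of `ω` agree, then up to and including the first return of the first symbol of `ω`. (2) If moreover the first
symbol of `ω` never returns, then the spectral measures of `ω` and of a sequence `ω'` which is not
eventually constant agree if and only if `ω'` is `ω` with renamed symbols. (3) The sequences in (2)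
contain a family indexed by all 0-1-sequences with pairwise different spectral measures. -/
theorem result :
    (∀ ω ω' : ℕ → Fin 3, NotEvConst ω → NotEvConst ω' → (∀ k, returns ω k = returns ω' k) →
      ∃ π : Equiv.Perm (Fin 3), ∀ n, (TwoBlocks ω n ∨ NoReturn ω n) → ω' n = π (ω n)) ∧
    (∀ ω : ℕ → Fin 3, NotEvConst ω → (∀ n, NoReturn ω n) → ∀ ω' : ℕ → Fin 3, NotEvConst ω' →
      ((∀ k, returns ω k = returns ω' k) ↔ ∃ π : Equiv.Perm (Fin 3), ∀ n, ω' n = π (ω n))) ∧
    ∃ f : (ℕ → Bool) → ℕ → Fin 3, (∀ b, NotEvConst (f b) ∧ ∀ n, NoReturn (f b) n) ∧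
      ∀ b b', (∀ k, returns (f b) k = returns (f b') k) → b = b' := by
  have h2 : ∀ ω : ℕ → Fin 3, NotEvConst ω → (∀ n, NoReturn ω n) → ∀ ω' : ℕ → Fin 3,
      NotEvConst ω' →
      ((∀ k, returns ω k = returns ω' k) ↔ ∃ π : Equiv.Perm (Fin 3), ∀ n, ω' n = π (ω n)) := by
    intro ω hω hn ω' hω'
    constructor
    · intro h
      obtain ⟨π, hπ⟩ := one_perm ω ω' hω hω' h
      exact ⟨π, fun n => hπ n (Or.inr (hn n))⟩
    · rintro ⟨π, hπ⟩ k
      have : ω' = fun n => π (ω n) := funext hπ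
      rw [this, ret_perm]
  refine ⟨one_perm, h2, ?_⟩
  let f : (ℕ → Bool) → ℕ → Fin 3 := fun b n =>
    if n = 0 then 0 else if n < 5 then 1 else if n = 5 then 2
    else if n % 2 = 0 then (if b (n / 2 - 3) then 1 else 2) else (if b (n / 2 - 3) then 2 else 1)
  have hf0 : ∀ b n, n ≠ 0 → f b n ≠ 0 := by
    intro b n hn
    simp only [f, if_neg hn]
    split_ifs <;> decide
  have hfe : ∀ b n, f b (2 * (n + 3)) = if b n then 1 else 2 := by
    intro b n
    simp only [f]
    rw [if_neg (by omega), if_neg (by omega), if_neg (by omega), if_pos (by omega),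
      show 2 * (n + 3) / 2 - 3 = n by omega]
  have hfo : ∀ b n, f b (2 * (n + 3) + 1) = if b n then 2 else 1 := by
    intro b n
    simp only [f]
    rw [if_neg (by omega), if_neg (by omega), if_neg (by omega), if_neg (by omega),
      show (2 * (n + 3) + 1) / 2 - 3 = n by omega]
  have hfND : ∀ b, NotEvConst (f b) := by
    intro b n
    by_cases h : f b (2 * (n + 3)) = f b n
    · refine ⟨2 * (n + 3) + 1, by omega, ?_⟩
      rw [← h, hfe, hfo]
      cases b n <;> decide
    · exact ⟨2 * (n + 3), by omega, h⟩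
  have hfNR : ∀ b n, NoReturn (f b) n := by
    intro b n
    refine ⟨rfl, rfl, rfl, fun i hi _ => ?_⟩
    exact hf0 b i (by omega)
  refine ⟨f, fun b => ⟨hfND b, hfNR b⟩, ?_⟩
  intro b b' h
  obtain ⟨π, hπ⟩ := (h2 (f b) (hfND b) (hfNR b) (f b') (hfND b')).1 h
  have e0 : π 0 = 0 := (hπ 0).symm
  have e1 : π 1 = 1 := (hπ 1).symm
  have e2 : π 2 = 2 := (hπ 5).symm
  have hid : ∀ k : Fin 3, π k = k := by
    intro k
    have : k = 0 ∨ k = 1 ∨ k = 2 := by revert k; decide
    rcases this with rfl | rfl | rfl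
    · exact e0
    · exact e1
    · exact e2
  funext n
  have h3 := hπ (2 * (n + 3))
  rw [hid, hfe, hfe] at h3
  revert h3
  cases b n <;> cases b' n <;> simp

end Pool.Agent.Results.MP_2e40ce_al.BlockRigidity
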