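import Mathlib

set_option autoImplicit false

namespace Pool.Agent.Results.MP_2e40ce_al.NewSymbolTimes

/-- The generators of the group, acting on finite binary words (`true` is the digit 1).
`s = 0` is the generator a, `s = 1` is b, `s = 2` is c, `s = 3` is d. The letter with number `s`
(1, 2 or 3) acts trivially below the vertex `1^n 0` exactly when `ω n = 3 - s`. -/
def gen (ω : ℕ → Fin 3) (s : Fin 4) (v : List Bool) : List Bool :=
  if s = 0 then v.set 0 (!(v.getD 0 false))
  else if (List.takeWhile id v).length + 1 < v.length ∧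
      (ω (List.takeWhile id v).length).val ≠ 3 - s.val
    then v.set ((List.takeWhile id v).length + 1)
      (!(v.getD ((List.takeWhile id v).length + 1) false))
    else v

/-- The action of a word in the generators. -/
def act (ω : ℕ → Fin 3) (u : List (Fin 4)) : List Bool → List Bool :=
  (u.map (gen ω)).foldr (fun f g => f ∘ g) id

/-- The number of words of length `k` in the four generators that equal the identity. -/
noncomputable def returns (ω : ℕ → Fin 3) (k : ℕ) : ℕ :=
  Nat.card {u : List (Fin 4) // u.length = k ∧ act ω u = id}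

/-- No symbol makes its first appearance at an index `j ≥ 1` from which `ω` is constant. -/
def NoFreshTail (ω : ℕ → Fin 3) : Prop :=
  ∀ j, 1 ≤ j → (∀ i, j ≤ i → ω i = ω j) → ∃ i, i < j ∧ ω i = ω j

/-- The number of different symbols among the first `t` letters. -/
def symbols (ω : ℕ → Fin 3) (t : ℕ) : ℕ := ((Finset.range t).image ω).card

/-! ### Basic recursion -/

def sh (ω : ℕ → Fin 3) : ℕ → Fin 3 := fun n => ω (n + 1)

lemma gen_zero_cons (ω : ℕ → Fin 3) (x : Bool) (v : List Bool) :
    gen ω 0 (x :: v) = (!x) :: v := by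
  simp [gen]

lemma gen_zero_nil (ω : ℕ → Fin 3) : gen ω 0 [] = [] := by
  simp [gen]

lemma gen_nil (ω : ℕ → Fin 3) (s : Fin 4) : gen ω s [] = [] := by
  by_cases h : s = 0 <;> simp [gen, h]

lemma gen_true_cons (ω : ℕ → Fin 3) (s : Fin 4) (hs : s ≠ 0) (v : List Bool) :
    gen ω s (true :: v) = true :: gen (sh ω) s v := by
  have h1 : (List.takeWhile id (true :: v)).length = (List.takeWhile id v).length + 1 := by
    simp
  by_cases h : (List.takeWhile id v).length + 1 < v.length ∧
      (sh ω (List.takeWhile id v).length).val ≠ 3 - s.val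
  · have h' : (List.takeWhile id (true :: v)).length + 1 < (true :: v).length ∧
      (ω (List.takeWhile id (true :: v)).length).val ≠ 3 - s.val := by
      rw [h1]
      exact ⟨by simpa using h.1, h.2⟩
    unfold gen
    rw [if_neg hs, if_neg hs, if_pos h, if_pos h', h1]
    simp
  · have h' : ¬ ((List.takeWhile id (true :: v)).length + 1 < (true :: v).length ∧
      (ω (List.takeWhile id (true :: v)).length).val ≠ 3 - s.val) := by
      rw [h1]
      intro h2
      exact h ⟨by simpa using h2.1, h2.2⟩
    unfold gen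
    rw [if_neg hs, if_neg hs, if_neg h, if_neg h']

lemma gen_false_cons_live (ω : ℕ → Fin 3) (s : Fin 4) (hs : s ≠ 0)
    (hk : (ω 0).val ≠ 3 - s.val) (v : List Bool) :
    gen ω s (false :: v) = false :: gen (sh ω) 0 v := by
  simp only [gen, hs, if_false, if_true]
  cases v with
  | nil => simp
  | cons x v => simp [hk]

lemma gen_false_cons_dead (ω : ℕ → Fin 3) (s : Fin 4) (hs : s ≠ 0)
    (hk : (ω 0).val = 3 - s.val) (v : List Bool) :
    gen ω s (false :: v) = false :: v := by
  simp only [gen, hs, if_false]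
  simp [hk]


/-! ### Involutions -/

lemma gen_inv (s : Fin 4) : ∀ (v : List Bool) (ω : ℕ → Fin 3), gen ω s (gen ω s v) = v := by
  by_cases hs : s = 0
  · subst hs
    intro v ω
    cases v with
    | nil => simp [gen_nil]
    | cons x v => simp [gen_zero_cons]
  · intro v
    induction v with
    | nil => intro ω; simp [gen_nil]
    | cons x v ih =>
      intro ω
      cases x with
      | true => rw [gen_true_cons ω s hs, gen_true_cons ω s hs, ih]
      | false =>
        by_cases hk : (ω 0).val = 3 - s.val
        · rw [gen_false_cons_dead ω s hs hk, gen_false_cons_dead ω s hs hk]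
        · rw [gen_false_cons_live ω s hs hk, gen_false_cons_live ω s hs hk]
          cases v with
          | nil => simp [gen_nil]
          | cons y v => simp [gen_zero_cons]

lemma gen_comp_self (ω : ℕ → Fin 3) (s : Fin 4) : gen ω s ∘ gen ω s = id := by
  funext v; exact gen_inv s v ω

lemma gen_comm (s t : Fin 4) (hs : s ≠ 0) (ht : t ≠ 0) : ∀ (v : List Bool) (ω : ℕ → Fin 3),
    gen ω s (gen ω t v) = gen ω t (gen ω s v) := by
  intro v
  induction v with
  | nil => intro ω; simp [gen_nil]
  | cons x v ih =>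
    intro ω
    cases x with
    | true => rw [gen_true_cons ω t ht, gen_true_cons ω s hs, gen_true_cons ω s hs,
        gen_true_cons ω t ht, ih]
    | false =>
      by_cases hks : (ω 0).val = 3 - s.val
      · by_cases hkt : (ω 0).val = 3 - t.val
        · simp only [gen_false_cons_dead ω s hs hks, gen_false_cons_dead ω t ht hkt]
        · simp only [gen_false_cons_dead ω s hs hks, gen_false_cons_live ω t ht hkt]
      · by_cases hkt : (ω 0).val = 3 - t.val
        · simp only [gen_false_cons_live ω s hs hks, gen_false_cons_dead ω t ht hkt]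
        · simp only [gen_false_cons_live ω s hs hks, gen_false_cons_live ω t ht hkt]

/-! ### The order of a x -/

/-- The symbol that kills the letter `s`. -/
def Kills (k : Fin 3) (s : Fin 4) : Prop := k.val = 3 - s.val

instance (k : Fin 3) (s : Fin 4) : Decidable (Kills k s) := by unfold Kills; infer_instance

lemma rot_sq_false_live (ω : ℕ → Fin 3) (s : Fin 4) (hs : s ≠ 0) (hk : ¬ Kills (ω 0) s)
    (v : List Bool) :
    (gen ω 0 ∘ gen ω s) ((gen ω 0 ∘ gen ω s) (false :: v)) =
      false :: (gen (sh ω) s ∘ gen (sh ω) 0) v := by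
  simp only [Function.comp_apply]
  rw [gen_false_cons_live ω s hs hk, gen_zero_cons, Bool.not_false, gen_true_cons ω s hs,
    gen_zero_cons, Bool.not_true]

lemma rot_sq_true_live (ω : ℕ → Fin 3) (s : Fin 4) (hs : s ≠ 0) (hk : ¬ Kills (ω 0) s)
    (v : List Bool) :
    (gen ω 0 ∘ gen ω s) ((gen ω 0 ∘ gen ω s) (true :: v)) =
      true :: (gen (sh ω) 0 ∘ gen (sh ω) s) v := by
  simp only [Function.comp_apply]
  rw [gen_true_cons ω s hs, gen_zero_cons, Bool.not_true, gen_false_cons_live ω s hs hk,
    gen_zero_cons, Bool.not_false]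

lemma rot_sq_false_dead (ω : ℕ → Fin 3) (s : Fin 4) (hs : s ≠ 0) (hk : Kills (ω 0) s)
    (v : List Bool) :
    (gen ω 0 ∘ gen ω s) ((gen ω 0 ∘ gen ω s) (false :: v)) =
      false :: gen (sh ω) s v := by
  simp only [Function.comp_apply]
  rw [gen_false_cons_dead ω s hs hk, gen_zero_cons, Bool.not_false, gen_true_cons ω s hs,
    gen_zero_cons, Bool.not_true]

lemma rot_sq_true_dead (ω : ℕ → Fin 3) (s : Fin 4) (hs : s ≠ 0) (hk : Kills (ω 0) s)
    (v : List Bool) :
    (gen ω 0 ∘ gen ω s) ((gen ω 0 ∘ gen ω s) (true :: v)) =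
      true :: gen (sh ω) s v := by
  simp only [Function.comp_apply]
  rw [gen_true_cons ω s hs, gen_zero_cons, Bool.not_true, gen_false_cons_dead ω s hs hk,
    gen_zero_cons, Bool.not_false]

/-- `R ω s n` : the n-th power of a x. -/
def R (ω : ℕ → Fin 3) (s : Fin 4) (n : ℕ) : List Bool → List Bool := (gen ω 0 ∘ gen ω s)^[n]

lemma R_two_mul (ω : ℕ → Fin 3) (s : Fin 4) (n : ℕ) :
    R ω s (2 * n) = ((gen ω 0 ∘ gen ω s) ∘ (gen ω 0 ∘ gen ω s))^[n] := by
  unfold R
  rw [Function.iterate_mul]
  rfl

lemma R_live_false (ω : ℕ → Fin 3) (s : Fin 4) (hs : s ≠ 0) (hk : ¬ Kills (ω 0) s) (n : ℕ)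
    (v : List Bool) :
    R ω s (2 * n) (false :: v) = false :: (gen (sh ω) s ∘ gen (sh ω) 0)^[n] v := by
  rw [R_two_mul]
  induction n generalizing v with
  | zero => rfl
  | succ n ih =>
    rw [Function.iterate_succ_apply, Function.iterate_succ_apply, ← ih]
    congr 1
    exact rot_sq_false_live ω s hs hk v

lemma R_live_true (ω : ℕ → Fin 3) (s : Fin 4) (hs : s ≠ 0) (hk : ¬ Kills (ω 0) s) (n : ℕ)
    (v : List Bool) :
    R ω s (2 * n) (true :: v) = true :: R (sh ω) s n v := by
  rw [R_two_mul]
  unfold R
  induction n generalizing v with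
  | zero => rfl
  | succ n ih =>
    rw [Function.iterate_succ_apply, Function.iterate_succ_apply, ← ih]
    congr 1
    exact rot_sq_true_live ω s hs hk v

lemma R_dead_false (ω : ℕ → Fin 3) (s : Fin 4) (hs : s ≠ 0) (hk : Kills (ω 0) s) (n : ℕ)
    (v : List Bool) :
    R ω s (2 * n) (false :: v) = false :: (gen (sh ω) s)^[n] v := by
  rw [R_two_mul]
  induction n generalizing v with
  | zero => rfl
  | succ n ih =>
    rw [Function.iterate_succ_apply, Function.iterate_succ_apply, ← ih]
    congr 1
    exact rot_sq_false_dead ω s hs hk v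

lemma R_dead_true (ω : ℕ → Fin 3) (s : Fin 4) (hs : s ≠ 0) (hk : Kills (ω 0) s) (n : ℕ)
    (v : List Bool) :
    R ω s (2 * n) (true :: v) = true :: (gen (sh ω) s)^[n] v := by
  rw [R_two_mul]
  induction n generalizing v with
  | zero => rfl
  | succ n ih =>
    rw [Function.iterate_succ_apply, Function.iterate_succ_apply, ← ih]
    congr 1
    exact rot_sq_true_dead ω s hs hk v

lemma R_nil (ω : ℕ → Fin 3) (s : Fin 4) (n : ℕ) : R ω s n [] = [] := by
  unfold R
  induction n with
  | zero => rfl
  | succ n ih =>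
    rw [Function.iterate_succ_apply]
    simp only [Function.comp_apply, gen_nil]
    exact ih

/-- Inverse of a product: `(x a)^n` is the identity iff `(a x)^n` is. -/
lemma swap_iter (f g : List Bool → List Bool) (hf : f ∘ f = id) (hg : g ∘ g = id) (n : ℕ) :
    (f ∘ g)^[n] = id → (g ∘ f)^[n] = id := by
  intro h
  -- g ∘ f is the inverse of f ∘ g
  have hinv : (g ∘ f) ∘ (f ∘ g) = id := by
    calc (g ∘ f) ∘ (f ∘ g) = g ∘ (f ∘ f) ∘ g := rfl
      _ = id := by rw [hf]; exact hg
  have hinv2 : (f ∘ g) ∘ (g ∘ f) = id := by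
    calc (f ∘ g) ∘ (g ∘ f) = f ∘ (g ∘ g) ∘ f := rfl
      _ = id := by rw [hg]; exact hf
  have hcomm : Function.Commute (g ∘ f) (f ∘ g) := by
    intro x
    have h1 := congrFun hinv x
    have h2 := congrFun hinv2 x
    simp only [Function.comp_apply, id] at h1 h2 ⊢
    rw [h1, h2]
  have h1 : ((g ∘ f) ∘ (f ∘ g))^[n] = (g ∘ f)^[n] ∘ (f ∘ g)^[n] := hcomm.comp_iterate n
  rw [hinv, h, Function.iterate_id] at h1
  exact h1.symm

lemma gen_eq_id_imp (s : Fin 4) (hs : s ≠ 0) (ω : ℕ → Fin 3) (h : gen ω s = id) :
    ∀ n, Kills (ω n) s := by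
  intro n
  induction n generalizing ω with
  | zero =>
    by_contra hk
    have h1 := congrFun h [false, false]
    rw [gen_false_cons_live ω s hs hk, gen_zero_cons] at h1
    simp at h1
  | succ n ih =>
    have h1 : gen (sh ω) s = id := by
      funext v
      have h2 := congrFun h (true :: v)
      rw [gen_true_cons ω s hs] at h2
      simpa using h2
    exact ih (sh ω) h1

lemma R_one_ne (ω : ℕ → Fin 3) (s : Fin 4) (hs : s ≠ 0) : R ω s 1 ≠ id := by
  intro h
  have h1 := congrFun h [true]
  unfold R at h1
  rw [Function.iterate_one, Function.comp_apply, gen_true_cons ω s hs, gen_zero_cons] at h1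
  simp at h1

lemma R_two (ω : ℕ → Fin 3) (s : Fin 4) (hs : s ≠ 0) (h : R ω s 2 = id) :
    ∀ n, Kills (ω n) s := by
  by_cases hk : Kills (ω 0) s
  · have h1 : gen (sh ω) s = id := by
      funext v
      have h2 := congrFun h (true :: v)
      rw [show (2 : ℕ) = 2 * 1 from rfl, R_dead_true ω s hs hk] at h2
      simpa using h2
    intro n
    cases n with
    | zero => exact hk
    | succ n => exact gen_eq_id_imp s hs (sh ω) h1 n
  · exfalso
    apply R_one_ne (sh ω) s hs
    funext v
    have h2 := congrFun h (true :: v)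
    rw [show (2 : ℕ) = 2 * 1 from rfl, R_live_true ω s hs hk] at h2
    simpa using h2

lemma iter_even_gen (ω : ℕ → Fin 3) (s : Fin 4) (n : ℕ) : (gen ω s)^[2 * n] = id := by
  rw [Function.iterate_mul]
  have : (gen ω s)^[2] = id := by
    rw [show (2 : ℕ) = 1 + 1 from rfl, Function.iterate_succ, Function.iterate_one]
    exact gen_comp_self ω s
  rw [this, Function.iterate_id]

/-- Main order computation. -/
lemma R_pow (s : Fin 4) (hs : s ≠ 0) : ∀ (j : ℕ) (ω : ℕ → Fin 3),
    (R ω s (2 ^ (j + 1)) = id ↔ (∃ i < j, Kills (ω i) s) ∨ ∀ n, Kills (ω (n + j)) s) := by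
  intro j
  induction j with
  | zero =>
    intro ω
    constructor
    · intro h
      right
      intro n
      exact R_two ω s hs (by simpa using h) _
    · rintro (⟨i, hi, _⟩ | h)
      · omega
      · have hg : ∀ v : List Bool, ∀ ω : ℕ → Fin 3, (∀ n, Kills (ω n) s) → gen ω s v = v := by
          intro v
          induction v with
          | nil => intro ω _; exact gen_nil ω s
          | cons x v ih =>
            intro ω h
            cases x with
            | true => rw [gen_true_cons ω s hs, ih (sh ω) (fun n => h (n + 1))]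
            | false => exact gen_false_cons_dead ω s hs (h 0) v
        have h' : ∀ n, Kills (ω n) s := fun n => h n
        funext v
        rw [show (2 : ℕ) ^ (0 + 1) = 2 * 1 from rfl]
        cases v with
        | nil => exact R_nil ω s _
        | cons x v =>
          cases x with
          | true =>
            rw [R_dead_true ω s hs (h' 0), Function.iterate_one,
              hg v (sh ω) (fun n => h' (n + 1))]
            rfl
          | false =>
            rw [R_dead_false ω s hs (h' 0), Function.iterate_one,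
              hg v (sh ω) (fun n => h' (n + 1))]
            rfl
  | succ j ih =>
    intro ω
    by_cases hk : Kills (ω 0) s
    · constructor
      · intro _
        left
        exact ⟨0, by omega, hk⟩
      · intro _
        funext v
        rw [show (2 : ℕ) ^ (j + 1 + 1) = 2 * (2 * 2 ^ j) by ring]
        cases v with
        | nil => exact R_nil ω s _
        | cons x v =>
          cases x with
          | true => rw [R_dead_true ω s hs hk, iter_even_gen]; rfl
          | false => rw [R_dead_false ω s hs hk, iter_even_gen]; rfl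
    · have h1 : R ω s (2 ^ (j + 1 + 1)) = id ↔ R (sh ω) s (2 ^ (j + 1)) = id := by
        rw [show (2 : ℕ) ^ (j + 1 + 1) = 2 * 2 ^ (j + 1) by ring]
        constructor
        · intro h
          funext v
          have h2 := congrFun h (true :: v)
          rw [R_live_true ω s hs hk] at h2
          simpa using h2
        · intro h
          have h' : (gen (sh ω) s ∘ gen (sh ω) 0)^[2 ^ (j + 1)] = id :=
            swap_iter _ _ (gen_comp_self _ _) (gen_comp_self _ _) _ h
          funext v
          cases v with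
          | nil => exact R_nil ω s _
          | cons x v =>
            cases x with
            | true => rw [R_live_true ω s hs hk, h]; rfl
            | false => rw [R_live_false ω s hs hk, h']; rfl
      rw [h1, ih (sh ω)]
      constructor
      · rintro (⟨i, hi, h⟩ | h)
        · exact Or.inl ⟨i + 1, by omega, h⟩
        · exact Or.inr (fun n => h n)
      · rintro (⟨i, hi, h⟩ | h)
        · cases i with
          | zero => exact absurd h hk
          | succ i => exact Or.inl ⟨i, by omega, h⟩
        · exact Or.inr (fun n => h n)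

/-! ### Counting modulo 4 -/

lemma four_dvd {Y : Type} [Fintype Y] [DecidableEq Y] (σ : Equiv.Perm Y) (n : ℕ)
    (h : σ ^ (2 ^ n) = 1) (h2 : ∀ y, σ (σ y) ≠ y) : 4 ∣ Fintype.card Y := by
  have hsupp : σ.support = Finset.univ := by
    ext y
    simp only [Equiv.Perm.mem_support, Finset.mem_univ, iff_true]
    intro hy
    exact h2 y (by rw [hy, hy])
  rw [← Finset.card_univ, ← hsupp, ← Equiv.Perm.sum_cycleType]
  apply Multiset.dvd_sum
  intro c hc
  have h1 : c ∣ 2 ^ n := (Equiv.Perm.dvd_of_mem_cycleType hc).trans (orderOf_dvd_of_pow_eq_one h)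
  have h3 : 2 ≤ c := Equiv.Perm.two_le_of_mem_cycleType hc
  obtain ⟨m, hm, rfl⟩ := (Nat.dvd_prime_pow Nat.prime_two).1 h1
  have hm2 : 2 ≤ m := by
    by_contra hlt
    have : m = 1 := by
      interval_cases m
      · simp at h3
      · rfl
    subst this
    rw [Equiv.Perm.cycleType_def] at hc
    obtain ⟨c', hc', hcard⟩ := Multiset.mem_map.1 hc
    have hc'' : c' ∈ σ.cycleFactorsFinset := hc'
    rw [Equiv.Perm.mem_cycleFactorsFinset_iff] at hc''
    obtain ⟨hcyc, hag⟩ := hc''
    obtain ⟨x, hx, -⟩ := id hcyc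
    have hxs : x ∈ c'.support := Equiv.Perm.mem_support.2 hx
    have hord : orderOf c' = 2 := by
      rw [hcyc.orderOf]; simpa using hcard
    have hsq : c' (c' x) = x := by
      have h5 : c' ^ 2 = 1 := by rw [← hord]; exact pow_orderOf_eq_one c'
      have := congrArg (fun q : Equiv.Perm Y => q x) h5
      simpa [sq] using this
    have hxs2 : c' x ∈ c'.support := Equiv.Perm.apply_mem_support.2 hxs
    apply h2 x
    rw [← hag x hxs, ← hag (c' x) hxs2, hsq]
  exact Dvd.dvd.trans (by norm_num : 4 ∣ 2 ^ 2) (pow_dvd_pow 2 hm2)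

lemma card_modEq_fix {X : Type} [Finite X] (σ : Equiv.Perm X) (n : ℕ)
    (h : σ ^ (2 ^ n) = 1) :
    Nat.card X ≡ Nat.card {x : X // σ (σ x) = x} [MOD 4] := by
  classical
  have := Fintype.ofFinite X
  have hp : ∀ x, (σ (σ x) ≠ x) ↔ (σ (σ (σ x)) ≠ σ x) := by
    intro x
    exact not_congr σ.injective.eq_iff.symm
  let τ : Equiv.Perm {x : X // σ (σ x) ≠ x} := σ.subtypePerm (fun x => (hp x).symm)
  have hτ : τ ^ (2 ^ n) = 1 := by
    have : ∀ m : ℕ, ∀ y : {x : X // σ (σ x) ≠ x}, ((τ ^ m) y : X) = (σ ^ m) y := by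
      intro m
      induction m with
      | zero => intro y; rfl
      | succ m ih =>
        intro y
        rw [pow_succ', pow_succ', Equiv.Perm.mul_apply, Equiv.Perm.mul_apply, ← ih]
        rfl
    ext y
    rw [this, h]
    rfl
  have h4 : 4 ∣ Fintype.card {x : X // σ (σ x) ≠ x} := by
    apply four_dvd τ n hτ
    rintro ⟨y, hy⟩ hyy
    apply hy
    exact congrArg Subtype.val hyy
  have hsum : Fintype.card X = Fintype.card {x : X // σ (σ x) = x} +
      Fintype.card {x : X // σ (σ x) ≠ x} := by
    rw [Fintype.card_subtype_compl]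
    have := Fintype.card_subtype_le (fun x : X => σ (σ x) = x)
    omega
  rw [Nat.card_eq_fintype_card, Nat.card_eq_fintype_card, hsum]
  obtain ⟨c, hc⟩ := h4
  rw [hc]
  unfold Nat.ModEq
  omega

lemma act_append (ω : ℕ → Fin 3) (u w : List (Fin 4)) :
    act ω (u ++ w) = act ω u ∘ act ω w := by
  induction u with
  | nil => rfl
  | cons s u ih =>
    have h1 : act ω (s :: u ++ w) = gen ω s ∘ act ω (u ++ w) := rfl
    have h2 : act ω (s :: u) = gen ω s ∘ act ω u := rfl
    rw [h1, h2, ih]
    rfl

lemma act_single (ω : ℕ → Fin 3) (s : Fin 4) : act ω [s] = gen ω s := rfl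

lemma act_rotate_one (ω : ℕ → Fin 3) (u : List (Fin 4)) (h : act ω u = id) :
    act ω (u.rotate 1) = id := by
  cases u with
  | nil => exact h
  | cons s w =>
    have h1 : (s :: w).rotate 1 = w ++ [s] := by simp
    rw [h1, act_append, act_single]
    have h2 : gen ω s ∘ act ω w = id := h
    have h3 : act ω w = gen ω s := by
      calc act ω w = (gen ω s ∘ gen ω s) ∘ act ω w := by rw [gen_comp_self]; rfl
        _ = gen ω s ∘ (gen ω s ∘ act ω w) := rfl
        _ = gen ω s := by rw [h2]; rfl
    rw [h3, gen_comp_self]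

lemma act_rotate (ω : ℕ → Fin 3) (u : List (Fin 4)) (h : act ω u = id) (n : ℕ) :
    act ω (u.rotate n) = id := by
  induction n with
  | zero => simpa using h
  | succ n ih =>
    rw [← List.rotate_rotate]
    exact act_rotate_one ω _ ih

/-- The set of words of length `L` representing the identity. -/
abbrev X (ω : ℕ → Fin 3) (L : ℕ) : Type := {u : List (Fin 4) // u.length = L ∧ act ω u = id}

instance (ω : ℕ → Fin 3) (L : ℕ) : Finite (X ω L) := by
  have h : {u : List (Fin 4) | u.length = L ∧ act ω u = id}.Finite :=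
    (List.finite_length_eq (Fin 4) L).subset (fun u hu => hu.1)
  exact h.to_subtype

/-- Rotation by one letter. -/
def rotP (ω : ℕ → Fin 3) (L : ℕ) : Equiv.Perm (X ω L) where
  toFun u := ⟨u.1.rotate 1, by rw [List.length_rotate]; exact u.2.1, act_rotate ω _ u.2.2 1⟩
  invFun u := ⟨u.1.rotate (L - 1), by rw [List.length_rotate]; exact u.2.1,
    act_rotate ω _ u.2.2 _⟩
  left_inv u := by
    apply Subtype.ext
    simp only [List.rotate_rotate]
    rcases Nat.eq_zero_or_pos L with h | h
    · have h0 : u.1 = [] := List.length_eq_zero_iff.1 (u.2.1.trans h)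
      rw [h0]; simp
    · have h1 : 1 + (L - 1) = u.1.length := by rw [u.2.1]; omega
      rw [h1, List.rotate_length]
  right_inv u := by
    apply Subtype.ext
    simp only [List.rotate_rotate]
    rcases Nat.eq_zero_or_pos L with h | h
    · have h0 : u.1 = [] := List.length_eq_zero_iff.1 (u.2.1.trans h)
      rw [h0]; simp
    · have h1 : L - 1 + 1 = u.1.length := by rw [u.2.1]; omega
      rw [h1, List.rotate_length]

lemma rotP_pow (ω : ℕ → Fin 3) (L n : ℕ) (u : X ω L) :
    (((rotP ω L) ^ n) u).1 = u.1.rotate n := by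
  induction n with
  | zero => simp
  | succ n ih =>
    rw [pow_succ', Equiv.Perm.mul_apply, ← List.rotate_rotate, ← ih]
    rfl

lemma rotP_pow_L (ω : ℕ → Fin 3) (L : ℕ) : (rotP ω L) ^ L = 1 := by
  ext1 u
  apply Subtype.ext
  rw [rotP_pow]
  have h := List.rotate_length u.1
  rw [u.2.1] at h
  exact h

lemma periodic_word (s t : Fin 4) : ∀ (n : ℕ) (w : List (Fin 4)), w.length = 2 * n →
    w ++ [s, t] = s :: t :: w → w = (List.replicate n [s, t]).flatten := by
  intro n
  induction n with
  | zero => intro w hw _; exact List.length_eq_zero_iff.1 hw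
  | succ n ih =>
    intro w hw h
    match w, hw, h with
    | [], hw, _ => exact absurd hw (by simp)
    | [_], hw, _ => exact absurd hw (by simp; omega)
    | x :: y :: w, hw, h =>
      simp only [List.cons_append, List.cons.injEq] at h
      obtain ⟨rfl, rfl, h⟩ := h
      have := ih w (by simp at hw; omega) h
      rw [List.replicate_succ, List.flatten_cons, ← this]
      rfl

lemma act_flatten (ω : ℕ → Fin 3) (s t : Fin 4) (n : ℕ) :
    act ω (List.replicate n [s, t]).flatten = (gen ω s ∘ gen ω t)^[n] := by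
  induction n with
  | zero => rfl
  | succ n ih =>
    rw [List.replicate_succ, List.flatten_cons, act_append, ih, Function.iterate_succ']
    rfl

lemma card_fix (ω : ℕ → Fin 3) (m : ℕ) (hm : 1 ≤ m) :
    Nat.card {u : X ω (2 * m) // rotP ω (2 * m) (rotP ω (2 * m) u) = u} =
      Nat.card {p : Fin 4 × Fin 4 // (gen ω p.1 ∘ gen ω p.2)^[m] = id} := by
  symm
  have hlen : ∀ p : Fin 4 × Fin 4, (List.replicate m [p.1, p.2]).flatten.length = 2 * m := by
    intro p
    simp [List.length_flatten, Nat.mul_comm]
  have hrot : ∀ p : Fin 4 × Fin 4, (List.replicate m [p.1, p.2]).flatten.rotate 2 =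
      (List.replicate m [p.1, p.2]).flatten := by
    intro p
    obtain ⟨k, rfl⟩ : ∃ k, m = k + 1 := ⟨m - 1, by omega⟩
    have h1 : (List.replicate (k + 1) [p.1, p.2]).flatten =
        [p.1, p.2] ++ (List.replicate k [p.1, p.2]).flatten := by
      rw [List.replicate_succ, List.flatten_cons]
    have h2 : (List.replicate (k + 1) [p.1, p.2]).flatten =
        (List.replicate k [p.1, p.2]).flatten ++ [p.1, p.2] := by
      rw [List.replicate_succ', List.flatten_append]
      simp
    conv_lhs => rw [h1]
    rw [h2]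
    have h3 : (2 : ℕ) = [p.1, p.2].length := rfl
    conv_lhs => rw [h3]
    rw [List.rotate_append_length_eq]
  let F : {p : Fin 4 × Fin 4 // (gen ω p.1 ∘ gen ω p.2)^[m] = id} →
      {u : X ω (2 * m) // rotP ω (2 * m) (rotP ω (2 * m) u) = u} := fun p =>
    ⟨⟨(List.replicate m [p.1.1, p.1.2]).flatten, hlen p.1, by rw [act_flatten]; exact p.2⟩, by
      apply Subtype.ext
      change ((List.replicate m [p.1.1, p.1.2]).flatten.rotate 1).rotate 1 = _
      rw [List.rotate_rotate]
      exact hrot p.1⟩
  apply Nat.card_eq_of_bijective F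
  constructor
  · rintro ⟨⟨s, t⟩, h1⟩ ⟨⟨s', t'⟩, h2⟩ h
    have h3 : (List.replicate m [s, t]).flatten = (List.replicate m [s', t']).flatten :=
      congrArg (fun z => z.1.1) h
    obtain ⟨k, rfl⟩ : ∃ k, m = k + 1 := ⟨m - 1, by omega⟩
    rw [List.replicate_succ, List.flatten_cons, List.replicate_succ, List.flatten_cons] at h3
    simp only [List.cons_append, List.cons.injEq] at h3
    obtain ⟨rfl, rfl, _⟩ := h3
    rfl
  · rintro ⟨⟨u, hu1, hu2⟩, hu3⟩
    have h4 : u.rotate 2 = u := by
      have := congrArg Subtype.val hu3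
      change (u.rotate 1).rotate 1 = u at this
      rwa [List.rotate_rotate] at this
    match u, hu1, hu2, hu3, h4 with
    | [], hu1, _, _, _ => simp at hu1; omega
    | [_], hu1, _, _, _ => simp at hu1; omega
    | s :: t :: w, hu1, hu2, hu3, h4 =>
      have h5 : w ++ [s, t] = s :: t :: w := by
        have h6 : (s :: t :: w).rotate 2 = w ++ [s, t] := by
          exact List.rotate_append_length_eq [s, t] w
        rw [← h6]; exact h4
      have h7 : w = (List.replicate (m - 1) [s, t]).flatten := by
        apply periodic_word s t (m - 1) w _ h5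
        simp at hu1; omega
      have h8 : s :: t :: w = (List.replicate m [s, t]).flatten := by
        obtain ⟨k, rfl⟩ : ∃ k, m = k + 1 := ⟨m - 1, by omega⟩
        rw [List.replicate_succ, List.flatten_cons, h7]
        rfl
      refine ⟨⟨(s, t), ?_⟩, ?_⟩
      · have := act_flatten ω s t m
        rw [← h8] at this
        change (gen ω s ∘ gen ω t)^[m] = id
        rw [← this]; exact hu2
      · apply Subtype.ext
        apply Subtype.ext
        exact h8.symm

/-! ### The count of period two words -/

lemma iter_id_of_sq {f : List Bool → List Bool} (h : f ∘ f = id) (n : ℕ) : f^[2 * n] = id := by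
  rw [Function.iterate_mul]
  have : f^[2] = id := h
  rw [this, Function.iterate_id]

lemma comm_sq (ω : ℕ → Fin 3) (s t : Fin 4) (hs : s ≠ 0) (ht : t ≠ 0) :
    (gen ω s ∘ gen ω t) ∘ (gen ω s ∘ gen ω t) = id := by
  funext v
  simp only [Function.comp_apply, id]
  rw [gen_comm s t hs ht v ω, gen_inv, gen_inv]

open Classical in
lemma card_pairs (ω : ℕ → Fin 3) (n : ℕ) :
    Nat.card {p : Fin 4 × Fin 4 // (gen ω p.1 ∘ gen ω p.2)^[2 * n] = id} =
      10 + 2 * ((if R ω 1 (2 * n) = id then 1 else 0) + (if R ω 2 (2 * n) = id then 1 else 0)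
        + (if R ω 3 (2 * n) = id then 1 else 0)) := by
  have hself : ∀ s : Fin 4, (gen ω s ∘ gen ω s)^[2 * n] = id := by
    intro s
    rw [gen_comp_self, Function.iterate_id]
  have hVV : ∀ s t : Fin 4, s ≠ 0 → t ≠ 0 → (gen ω s ∘ gen ω t)^[2 * n] = id := by
    intro s t hs ht
    exact iter_id_of_sq (comm_sq ω s t hs ht) n
  have haV : ∀ s : Fin 4, (gen ω s ∘ gen ω 0)^[2 * n] = id ↔ R ω s (2 * n) = id := by
    intro s
    exact ⟨swap_iter _ _ (gen_comp_self _ _) (gen_comp_self _ _) _,
      swap_iter _ _ (gen_comp_self _ _) (gen_comp_self _ _) _⟩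
  have haV' : ∀ s : Fin 4, (gen ω 0 ∘ gen ω s)^[2 * n] = id ↔ R ω s (2 * n) = id := by
    intro s; exact Iff.rfl
  rw [Nat.card_eq_fintype_card, Fintype.card_subtype, Finset.card_filter,
    Fintype.sum_prod_type, Fin.sum_univ_four]
  simp only [Fin.sum_univ_four]
  rw [if_pos (hself 0), if_pos (hself 1), if_pos (hself 2), if_pos (hself 3),
    if_pos (hVV 1 2 (by decide) (by decide)), if_pos (hVV 1 3 (by decide) (by decide)),
    if_pos (hVV 2 1 (by decide) (by decide)), if_pos (hVV 2 3 (by decide) (by decide)),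
    if_pos (hVV 3 1 (by decide) (by decide)), if_pos (hVV 3 2 (by decide) (by decide))]
  simp only [haV, haV']
  ring

open Classical in
/-- The returns of length `2^(t+2)` modulo 4. -/
lemma returns_mod (ω : ℕ → Fin 3) (t : ℕ) :
    returns ω (2 * (2 * 2 ^ t)) ≡
      10 + 2 * ((if R ω 1 (2 * 2 ^ t) = id then 1 else 0) +
        (if R ω 2 (2 * 2 ^ t) = id then 1 else 0)
        + (if R ω 3 (2 * 2 ^ t) = id then 1 else 0)) [MOD 4] := by
  have h1 := card_modEq_fix (rotP ω (2 * (2 * 2 ^ t))) (t + 2) (by
    have := rotP_pow_L ω (2 * (2 * 2 ^ t))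
    rwa [show 2 ^ (t + 2) = 2 * (2 * 2 ^ t) by ring])
  rw [card_fix ω (2 * 2 ^ t) (by have := Nat.pow_pos (n := t) (show 0 < 2 by norm_num); omega), card_pairs] at h1
  exact h1

/-! ### Symbols -/

lemma R_iff (ω : ℕ → Fin 3) (hω : NoFreshTail ω) (t : ℕ) (ht : 1 ≤ t) (s : Fin 4) (hs : s ≠ 0) :
    R ω s (2 * 2 ^ t) = id ↔ ∃ i < t, Kills (ω i) s := by
  rw [show 2 * 2 ^ t = 2 ^ (t + 1) by ring, R_pow s hs]
  constructor
  · rintro (h | h)
    · exact h
    · have hconst : ∀ i, t ≤ i → ω i = ω t := by
        intro i hi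
        have h1 := h (i - t)
        have h2 := h 0
        rw [show i - t + t = i by omega] at h1
        rw [Nat.zero_add] at h2
        unfold Kills at h1 h2
        exact Fin.ext (by rw [h1, h2])
      obtain ⟨i, hi, h3⟩ := hω t ht hconst
      refine ⟨i, hi, ?_⟩
      rw [h3]
      have h2 := h 0
      rwa [Nat.zero_add] at h2
  · intro h
    exact Or.inl h

open Classical in
lemma symbols_eq (ω : ℕ → Fin 3) (hω : NoFreshTail ω) (t : ℕ) (ht : 1 ≤ t) :
    ((if R ω 1 (2 * 2 ^ t) = id then 1 else 0) +
        (if R ω 2 (2 * 2 ^ t) = id then 1 else 0)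
        + (if R ω 3 (2 * 2 ^ t) = id then 1 else 0)) = symbols ω t := by
  have h1 : R ω 1 (2 * 2 ^ t) = id ↔ (2 : Fin 3) ∈ (Finset.range t).image ω := by
    rw [R_iff ω hω t ht 1 (by decide)]
    simp only [Finset.mem_image, Finset.mem_range, Kills]
    constructor
    · rintro ⟨i, hi, h⟩; exact ⟨i, hi, Fin.ext (by rw [h]; rfl)⟩
    · rintro ⟨i, hi, h⟩; exact ⟨i, hi, by rw [h]; rfl⟩
  have h2 : R ω 2 (2 * 2 ^ t) = id ↔ (1 : Fin 3) ∈ (Finset.range t).image ω := by
    rw [R_iff ω hω t ht 2 (by decide)]
    simp only [Finset.mem_image, Finset.mem_range, Kills]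
    constructor
    · rintro ⟨i, hi, h⟩; exact ⟨i, hi, Fin.ext (by rw [h]; rfl)⟩
    · rintro ⟨i, hi, h⟩; exact ⟨i, hi, by rw [h]; rfl⟩
  have h3 : R ω 3 (2 * 2 ^ t) = id ↔ (0 : Fin 3) ∈ (Finset.range t).image ω := by
    rw [R_iff ω hω t ht 3 (by decide)]
    simp only [Finset.mem_image, Finset.mem_range, Kills]
    constructor
    · rintro ⟨i, hi, h⟩; exact ⟨i, hi, Fin.ext (by rw [h]; rfl)⟩
    · rintro ⟨i, hi, h⟩; exact ⟨i, hi, by rw [h]; rfl⟩
  simp only [h1, h2, h3]
  unfold symbols
  generalize (Finset.range t).image ω = S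
  have h4 : S.card = ∑ k : Fin 3, if k ∈ S then 1 else 0 := by
    rw [← Finset.card_filter]
    congr 1
    ext x; simp
  rw [h4, Fin.sum_univ_three]
  ring

lemma symbols_succ (ω : ℕ → Fin 3) (t : ℕ) :
    symbols ω (t + 1) = symbols ω t ∨ symbols ω (t + 1) = symbols ω t + 1 := by
  unfold symbols
  rw [Finset.range_add_one, Finset.image_insert]
  by_cases h : ω t ∈ (Finset.range t).image ω
  · left; rw [Finset.insert_eq_of_mem h]
  · right; rw [Finset.card_insert_of_notMem h]

/-- **Theorem.** Let `ω, ω'` be sequences in which no symbol makes its first appearance (at an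
index at least 1) at the start of a constant tail. If the spectral measures of the two groups
agree (equal numbers of closed generator words of every length), then for every `t` the first `t`
letters of `ω` and of `ω'` contain the same number of different symbols. -/
theorem result (ω ω' : ℕ → Fin 3) (hω : NoFreshTail ω) (hω' : NoFreshTail ω')
    (h : ∀ k, returns ω k = returns ω' k) (t : ℕ) : symbols ω t = symbols ω' t := by
  classical
  have hpar : ∀ t, 1 ≤ t → symbols ω t ≡ symbols ω' t [MOD 2] := by
    intro t ht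
    have h1 := returns_mod ω t
    have h2 := returns_mod ω' t
    rw [symbols_eq ω hω t ht] at h1
    rw [symbols_eq ω' hω' t ht, ← h] at h2
    have h3 := h1.symm.trans h2
    unfold Nat.ModEq at h3 ⊢
    omega
  induction t with
  | zero => rfl
  | succ t ih =>
    have h1 := symbols_succ ω t
    have h2 := symbols_succ ω' t
    have h3 := hpar (t + 1) (by omega)
    unfold Nat.ModEq at h3
    omega

end Pool.Agent.Results.MP_2e40ce_al.NewSymbolTimes
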